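import Pool.Agent.Work.MP_d7201b_al.Class

/-!
# `5 ∈ 𝔠₄`, so `4` is not the greatest element of `𝔠₄`
-/

namespace Pool.Agent.Results.MP_d7201b_al.ClassFive

open Pool.Agent.Work.MP_d7201b_al

/-- There are a finite 5-group `G` and a right 4-Engel element `x` of `G` whose normal closure has
nilpotency class exactly `5`; hence `5` belongs to the set `𝔠₄`, and `4` is not the greatest
element of `𝔠₄` (`𝔠₄` is unbounded or has a maximum which is at least `5`). -/
theorem result :
    (∃ (G : Type) (_ : Group G) (x : G), Finite G ∧ IsPGroup 5 G ∧ IsRightEngel 4 x ∧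
      Group.IsNilpotent (Subgroup.normalClosure {x}) ∧
      Group.nilpotencyClass (Subgroup.normalClosure {x}) = 5) ∧
    5 ∈ classes4 ∧ ¬ IsGreatest classes4 4 :=
  ⟨Gp.main, Gp.main2, Gp.main3⟩

end Pool.Agent.Results.MP_d7201b_al.ClassFive
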