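import Pool.Agent.Work.MP_d7201b_al_LN31.Final
import Pool.Agent.Work.MP_d7201b_al_helper73.P23
import Pool.Agent.Work.MP_d7201b_al_helper4.Main

/-!
# The nilpotency class of the normal closure of a right 4-Engel element is at most six
-/

namespace Pool.Agent.Results.MP_d7201b_al.ClassSix

open Pool.Agent.Work.MP_d7201b_al

/-- Let `x` be a right 4-Engel element of an arbitrary group `G` whose normal closure is
nilpotent.  Then the class of the normal closure is at most `6`.  In particular the set `𝔠₄` of
the problem is bounded. -/
theorem result.{u} :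
    (∀ (G : Type u) [Group G] (x : G), IsRightEngel 4 x →
      Group.IsNilpotent (Subgroup.normalClosure {x}) →
      Group.nilpotencyClass (Subgroup.normalClosure {x}) ≤ 6) ∧ BddAbove classes4 := by
  refine ⟨fun G _ x he hn =>
    LN.class_le_six L3.stmt_P2_holds L3.stmt_P3_holds LN4.fin_stmt he hn, 6, ?_⟩
  rintro c ⟨G, _, x, hx, hN, rfl⟩
  exact LN.class_le_six L3.stmt_P2_holds L3.stmt_P3_holds LN4.fin_stmt hx hN

end Pool.Agent.Results.MP_d7201b_al.ClassSix
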