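import Pool.Agent.Work.MP_d7201b_al.Tor.Main
import Pool.Agent.Work.MP_d7201b_al.Tor.Ex

/-!
# `γ₄(⟨x⟩^G)` is a `{2, 3, 5}`-torsion group for every right 4-Engel element `x`
-/

namespace Pool.Agent.Results.MP_d7201b_al.GammaFourTorsion

open Pool.Agent.Work.MP_d7201b_al

/-- The set of the classes of the nilpotent normal closures of right 4-Engel elements in groups
without elements of order `2`, `3` or `5`. -/
def classes4Free : Set ℕ :=
  {c | ∃ (G : Type) (_ : Group G) (x : G),
    (∀ g : G, orderOf g ≠ 2 ∧ orderOf g ≠ 3 ∧ orderOf g ≠ 5) ∧ IsRightEngel 4 x ∧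
    Group.IsNilpotent (Subgroup.normalClosure {x}) ∧
    Group.nilpotencyClass (Subgroup.normalClosure {x}) = c}

/-- Let `x` be a right 4-Engel element of an arbitrary group `G` whose normal closure `N` is
nilpotent.  Then every element of `γ₄(N)` is killed by a power of `30`.  If `G` has no elements
of order `2`, `3` or `5`, then `N` has class at most `3`.  The bound `3` is attained, even in a
torsion-free group, so `3` is the greatest class for `{2, 3, 5}'`-groups. -/
theorem result.{u} :
    (∀ (G : Type u) [Group G] (x : G), IsRightEngel 4 x →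
      Group.IsNilpotent (Subgroup.normalClosure {x}) →
      ∀ z ∈ (Subgroup.normalClosure {x}).lowerCentralSeries 3, ∃ n : ℕ, z ^ (30 ^ n) = 1) ∧
    (∀ (G : Type u) [Group G] (x : G),
      (∀ g : G, orderOf g ≠ 2 ∧ orderOf g ≠ 3 ∧ orderOf g ≠ 5) → IsRightEngel 4 x →
      Group.IsNilpotent (Subgroup.normalClosure {x}) →
      Group.nilpotencyClass (Subgroup.normalClosure {x}) ≤ 3) ∧
    (∃ (G : Type) (_ : Group G) (x : G), (∀ g : G, ∀ k : ℕ, k ≠ 0 → g ^ k = 1 → g = 1) ∧
      IsRightEngel 4 x ∧ Group.IsNilpotent (Subgroup.normalClosure {x}) ∧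
      Group.nilpotencyClass (Subgroup.normalClosure {x}) = 3) ∧
    IsGreatest classes4Free 3 := by
  have hfree : ∀ g : E4, orderOf g ≠ 2 ∧ orderOf g ≠ 3 ∧ orderOf g ≠ 5 := by
    have key : ∀ g : E4, ∀ k : ℕ, k ≠ 0 → k ≠ 1 → orderOf g ≠ k := by
      intro g k hk hk1 h
      have h1 := E4.torsionFree g k hk (by rw [← h]; exact pow_orderOf_eq_one g)
      rw [h1, orderOf_one] at h
      exact hk1 h.symm
    exact fun g => ⟨key g 2 (by norm_num) (by norm_num), key g 3 (by norm_num) (by norm_num),
      key g 5 (by norm_num) (by norm_num)⟩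
  have hE : Group.IsNilpotent E4 := E4.isNilpotent
  have hn : Group.IsNilpotent (Subgroup.normalClosure {E4.x}) := inferInstance
  have hc : Group.nilpotencyClass (Subgroup.normalClosure {E4.x}) = 3 := by
    apply le_antisymm (class_le hfree E4.x (E4.isRightEngel _) hn)
    by_contra h
    have h2 : Group.nilpotencyClass (Subgroup.normalClosure {E4.x}) ≤ 2 := by omega
    rw [← Subgroup.lowerCentralSeries_eq_bot_iff_nilpotencyClass_le, ← Subgroup.map_subtype_inj,
      Subgroup.map_bot, Subgroup.top_subtype_lowerCentralSeries] at h2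
    exact E4.three h2
  refine ⟨fun G _ x => main x, fun G _ x hG => class_le hG x,
    ⟨E4, inferInstance, E4.x, E4.torsionFree, E4.isRightEngel _, hn, hc⟩,
    ⟨E4, inferInstance, E4.x, hfree, E4.isRightEngel _, hn, hc⟩, ?_⟩
  rintro c ⟨G, _, x, hG, hx, hN, rfl⟩
  exact class_le hG x hx hN

end Pool.Agent.Results.MP_d7201b_al.GammaFourTorsion
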